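import Pool.Agent.H55.CG.Targets

/-!
# The order of the gap of the copolymer critical curve (MP_65efe8_pr): row YPW
-/

set_option autoImplicit false

open MeasureTheory ProbabilityTheory Filter Topology
open Pool.Agent.H95 Pool.Agent.H95.Cop Pool.Agent.H55.CG

namespace Pool.Agent.H89.CG

theorem dc_nonneg (α a : ℝ) (ha : 0 ≤ a) (L : List (ℕ × ℕ)) : 0 ≤ dc α a L := by
  induction L with
  | nil => exact zero_le_one
  | cons p L ih =>
    show 0 ≤ (a * (2 * (p.1 : ℝ) + 1) ^ (-(1 + α))) * (a * (2 * (p.2 : ℝ) + 1) ^ (-(1 + α))) *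
      dc α a L
    have h1 : (0 : ℝ) ≤ (2 * (p.1 : ℝ) + 1) ^ (-(1 + α)) := Real.rpow_nonneg (by positivity) _
    have h2 : (0 : ℝ) ≤ (2 * (p.2 : ℝ) + 1) ^ (-(1 + α)) := Real.rpow_nonneg (by positivity) _
    exact mul_nonneg (mul_nonneg (mul_nonneg ha h1) (mul_nonneg ha h2)) ih

/-- YPW: powers of the sum over disjoint events. -/
theorem pf_YPW (hDIS : T_DIS) (hGGS : T_GGS) : T_YPW := by
  classical
  intro K α a q R ℓ P m hq ha hℓ hP x s hs
  have hF : ∀ L, 0 ≤ dc α a L * FB K ℓ L x := fun L =>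
    mul_nonneg (dc_nonneg α a ha L) ((hGGS K ℓ hℓ).2.2.1 L x)
  constructor
  · unfold YY
    refine Finset.sum_nonneg fun L _ => ?_
    split_ifs
    · exact hF L
    · exact le_rfl
  · by_cases h : ∃ L0 ∈ P, GB q ℓ L0 x
    · obtain ⟨L0, hL0, hG0⟩ := h
      have huniq : ∀ L ∈ P, L ≠ L0 → ¬ GB q ℓ L x := fun L hL hne hG =>
        hne (hDIS q R ℓ hq L L0 (shift (2 * ℓ) x) (hP L hL).1 (hP L0 hL0).1
          ((hP L hL).2.trans (hP L0 hL0).2.symm) hG hG0)
      unfold YY
      rw [Finset.sum_eq_single_of_mem L0 hL0 (fun L hL hne => if_neg (huniq L hL hne)),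
        Finset.sum_eq_single_of_mem L0 hL0 (fun L hL hne => if_neg (huniq L hL hne)),
        if_pos hG0, if_pos hG0]
    · push Not at h
      unfold YY
      rw [Finset.sum_eq_zero (fun L hL => if_neg (h L hL)),
        Finset.sum_eq_zero (fun L hL => if_neg (h L hL)), Real.zero_rpow hs.ne']

end Pool.Agent.H89.CG
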